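import Mathlib

/-!
# A counterexample to the pseudofan conjecture

We give an F-matrix `V` of size `3 x 16` and a pseudofan of `V` with `56` cones which covers
`R^3` twice.  It is minimal (no proper subcollection is a pseudofan), two of its cones have
intersecting interiors, and it is not the set of maximal cones of a fan.
-/

namespace Pool.Agent.Results.MP_d9dcf6_co.Pseudofan

open Finset

/-! ## Definitions -/

/-- The `i`-th column of an integer matrix, as a real vector. -/
def col {n m : ℕ} (V : Matrix (Fin n) (Fin m) ℤ) (i : Fin m) : Fin n → ℝ :=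
  fun k => (V k i : ℝ)

/-- The closed convex cone spanned by the columns with index in `s`. -/
def cone {n m : ℕ} (V : Matrix (Fin n) (Fin m) ℤ) (s : Finset (Fin m)) :
    Set (Fin n → ℝ) :=
  {x | ∃ c : Fin m → ℝ, (∀ i, 0 ≤ c i) ∧ x = ∑ i ∈ s, c i • col V i}

/-- F-matrices: rank `n`, no zero column, no column is a positive real multiple of another
column, the columns generate `R^n` as a convex cone, the entries of each column have gcd `1`. -/
structure IsFMatrix {n m : ℕ} (V : Matrix (Fin n) (Fin m) ℤ) : Prop where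
  rank : (V.map (Int.cast : ℤ → ℝ)).rank = n
  ne_zero : ∀ i, col V i ≠ 0
  not_multiple : ∀ i j, i ≠ j → ∀ c : ℝ, 0 < c → col V i ≠ c • col V j
  generate : cone V Finset.univ = Set.univ
  primitive : ∀ i, ∀ d : ℤ, (∀ k, d ∣ V k i) → IsUnit d

/-- The collection `M` of the `n`-dimensional simplicial cones spanned by `n` columns of `V`
(linearly independent) that contain no column of `V` other than their generators. -/
def emptyCones {n m : ℕ} (V : Matrix (Fin n) (Fin m) ℤ) : Set (Set (Fin n → ℝ)) :=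
  {σ | ∃ s : Finset (Fin m), s.card = n ∧ LinearIndependent ℝ (fun i : s => col V i) ∧
    σ = cone V s ∧ ∀ j, col V j ∈ σ → j ∈ s}

/-- Faces of a cone: the sets cut out by supporting linear functionals. -/
def IsFace {n : ℕ} (F σ : Set (Fin n → ℝ)) : Prop :=
  ∃ l : (Fin n → ℝ) →ₗ[ℝ] ℝ, (∀ x ∈ σ, 0 ≤ l x) ∧ F = {x | x ∈ σ ∧ l x = 0}

/-- Dimension of a set (of its linear span). -/
noncomputable def dimen {n : ℕ} (F : Set (Fin n → ℝ)) : ℕ :=
  Module.finrank ℝ (Submodule.span ℝ F)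

/-- Facets of an `n`-dimensional cone: the faces of dimension `n - 1`. -/
def IsFacet {n : ℕ} (F σ : Set (Fin n → ℝ)) : Prop :=
  IsFace F σ ∧ dimen F + 1 = n

/-- `σ` and `τ` lie in the two different closed half-spaces bounded by a hyperplane
(the zero set of a nonzero linear functional) containing `f`; for `f` of dimension `n - 1`
this hyperplane is the linear span of `f`. -/
def Opposite {n : ℕ} (f σ τ : Set (Fin n → ℝ)) : Prop :=
  ∃ l : (Fin n → ℝ) →ₗ[ℝ] ℝ, l ≠ 0 ∧ (∀ x ∈ f, l x = 0) ∧ (∀ x ∈ σ, 0 ≤ l x) ∧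
    ∀ x ∈ τ, l x ≤ 0

/-- Pseudofans of `V`. -/
structure IsPseudofan {n m : ℕ} (V : Matrix (Fin n) (Fin m) ℤ)
    (C : Set (Set (Fin n → ℝ))) : Prop where
  sub : C ⊆ emptyCones V
  rays : ∀ j, ∃ σ ∈ C, IsFace (cone V {j}) σ
  walls : ∀ σ ∈ C, ∀ f, IsFacet f σ → ∃ τ ∈ C, τ ≠ σ ∧ IsFacet f τ ∧ Opposite f σ τ ∧
    ∀ τ' ∈ C, τ' ≠ σ → IsFacet f τ' → τ' = τ

/-- Complete simplicial fans in `R^n` whose rays are exactly the rays spanned by the columns
of `V`. -/
structure IsFan {n m : ℕ} (V : Matrix (Fin n) (Fin m) ℤ)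
    (S : Set (Set (Fin n → ℝ))) : Prop where
  simplicial : ∀ σ ∈ S, ∃ s : Finset (Fin m),
    LinearIndependent ℝ (fun i : s => col V i) ∧ σ = cone V s
  face : ∀ σ ∈ S, ∀ F, IsFace F σ → F ∈ S
  inter : ∀ σ ∈ S, ∀ τ ∈ S, IsFace (σ ∩ τ) σ ∧ IsFace (σ ∩ τ) τ
  complete : ∀ x, ∃ σ ∈ S, x ∈ σ
  rays : ∀ j, cone V {j} ∈ S

/-! ## General lemmas -/

section general

variable {n m : ℕ} {V : Matrix (Fin n) (Fin m) ℤ}

lemma zero_mem_cone (s : Finset (Fin m)) : (0 : Fin n → ℝ) ∈ cone V s :=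
  ⟨fun _ => 0, fun _ => le_rfl, by simp⟩

lemma col_mem_cone {s : Finset (Fin m)} {i : Fin m} (hi : i ∈ s) : col V i ∈ cone V s := by
  classical
  refine ⟨fun j => if j = i then 1 else 0, fun j => by dsimp only; split_ifs <;> norm_num, ?_⟩
  simp [hi]

lemma cone_mono {s t : Finset (Fin m)} (h : s ⊆ t) : cone V s ⊆ cone V t := by
  classical
  rintro x ⟨c, hc, rfl⟩
  refine ⟨fun j => if j ∈ s then c j else 0, fun j => by dsimp only; split_ifs <;> simp [hc], ?_⟩
  simp only [ite_smul, zero_smul]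
  rw [← Finset.sum_filter]
  congr 1
  ext j
  simp only [Finset.mem_filter]
  exact ⟨fun hj => ⟨h hj, hj⟩, fun hj => hj.2⟩

lemma cone_subset_span (s : Finset (Fin m)) :
    cone V s ⊆ Submodule.span ℝ (col V '' (s : Set (Fin m))) := by
  rintro x ⟨c, hc, rfl⟩
  exact Submodule.sum_mem _ fun i hi => Submodule.smul_mem _ _
    (Submodule.subset_span ⟨i, hi, rfl⟩)

lemma span_cone (s : Finset (Fin m)) :
    Submodule.span ℝ (cone V s) = Submodule.span ℝ (col V '' (s : Set (Fin m))) := by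
  apply le_antisymm
  · exact Submodule.span_le.2 (cone_subset_span s)
  · apply Submodule.span_mono
    rintro _ ⟨i, hi, rfl⟩
    exact col_mem_cone hi

lemma dimen_cone {s : Finset (Fin m)} (h : LinearIndependent ℝ (fun i : s => col V i)) :
    dimen (cone V s) = s.card := by
  unfold dimen
  rw [span_cone]
  have : col V '' (s : Set (Fin m)) = Set.range (fun i : s => col V i) := by
    ext x
    constructor
    · rintro ⟨i, hi, rfl⟩
      exact ⟨⟨i, hi⟩, rfl⟩
    · rintro ⟨i, rfl⟩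
      exact ⟨i.1, i.2, rfl⟩
  rw [this, finrank_span_eq_card h, Fintype.card_coe]

lemma li_mono {s t : Finset (Fin m)} (h : t ⊆ s)
    (hs : LinearIndependent ℝ (fun i : s => col V i)) :
    LinearIndependent ℝ (fun i : t => col V i) := by
  have := hs.comp (fun i : t => (⟨i.1, h i.2⟩ : s)) (by
    intro a b hab
    exact Subtype.ext (congrArg (fun x : s => (x : Fin m)) hab))
  exact this

/-- Faces of a cone spanned by columns are spanned by subsets. -/
lemma face_eq {s : Finset (Fin m)} {F : Set (Fin n → ℝ)} (h : IsFace F (cone V s)) :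
    ∃ t ⊆ s, F = cone V t := by
  classical
  obtain ⟨l, hl, rfl⟩ := h
  refine ⟨s.filter (fun i => l (col V i) = 0), Finset.filter_subset _ _, ?_⟩
  ext x
  constructor
  · rintro ⟨⟨c, hc, rfl⟩, hx⟩
    rw [map_sum] at hx
    have h0 : ∀ i ∈ s, 0 ≤ l (c i • col V i) := fun i hi => by
      rw [map_smul]
      exact smul_nonneg (hc i) (hl _ (col_mem_cone hi))
    rw [Finset.sum_eq_zero_iff_of_nonneg h0] at hx
    refine ⟨c, hc, ?_⟩
    rw [Finset.sum_filter]
    refine Finset.sum_congr rfl fun i hi => ?_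
    split_ifs with h1
    · rfl
    · have := hx i hi
      rw [map_smul, smul_eq_mul, mul_eq_zero] at this
      rcases this with h2 | h2
      · rw [h2, zero_smul]
      · exact absurd h2 h1
  · intro hx
    refine ⟨cone_mono (Finset.filter_subset _ _) hx, ?_⟩
    obtain ⟨c, hc, rfl⟩ := hx
    rw [map_sum]
    refine Finset.sum_eq_zero fun i hi => ?_
    rw [map_smul, (Finset.mem_filter.1 hi).2, smul_zero]

/-- Dual functionals of a linearly independent family. -/
lemma exists_dual {s : Finset (Fin m)} (h : LinearIndependent ℝ (fun i : s => col V i))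
    (i : Fin m) (hi : i ∈ s) :
    ∃ l : (Fin n → ℝ) →ₗ[ℝ] ℝ, l (col V i) = 1 ∧ ∀ j ∈ s, j ≠ i → l (col V j) = 0 := by
  classical
  have hli := h.linearIndepOn_id
  obtain ⟨l, hl⟩ := LinearMap.exists_extend
    ((Finsupp.lapply (⟨i, hi⟩ : s)) ∘ₗ (h.repr : _ →ₗ[ℝ] _))
  refine ⟨l, ?_, ?_⟩
  · have hm : col V i ∈ Submodule.span ℝ (Set.range (fun i : s => col V i)) :=
      Submodule.subset_span ⟨⟨i, hi⟩, rfl⟩
    have := LinearMap.congr_fun hl ⟨col V i, hm⟩
    simp only [LinearMap.comp_apply, Submodule.subtype_apply] at this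
    rw [this]
    have h2 : h.repr ⟨col V i, hm⟩ = Finsupp.single ⟨i, hi⟩ 1 :=
      h.repr_eq_single ⟨i, hi⟩ _ rfl
    simp [h2]
  · intro j hj hji
    have hm : col V j ∈ Submodule.span ℝ (Set.range (fun i : s => col V i)) :=
      Submodule.subset_span ⟨⟨j, hj⟩, rfl⟩
    have := LinearMap.congr_fun hl ⟨col V j, hm⟩
    simp only [LinearMap.comp_apply, Submodule.subtype_apply] at this
    rw [this]
    have h2 : h.repr ⟨col V j, hm⟩ = Finsupp.single ⟨j, hj⟩ 1 :=
      h.repr_eq_single ⟨j, hj⟩ _ rfl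
    have h3 : (⟨j, hj⟩ : s) ≠ ⟨i, hi⟩ := fun h => hji (congrArg Subtype.val h)
    simp [h2, h3]

lemma cone_isFace {s t : Finset (Fin m)} (h : LinearIndependent ℝ (fun i : s => col V i))
    (hts : t ⊆ s) : IsFace (cone V t) (cone V s) := by
  classical
  have hd : ∀ i : Fin m, ∃ l : (Fin n → ℝ) →ₗ[ℝ] ℝ, i ∈ s →
      l (col V i) = 1 ∧ ∀ j ∈ s, j ≠ i → l (col V j) = 0 := by
    intro i
    by_cases hi : i ∈ s
    · obtain ⟨l, hl⟩ := exists_dual h i hi
      exact ⟨l, fun _ => hl⟩
    · exact ⟨0, fun h => absurd h hi⟩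
  choose l hl using hd
  have key : ∀ j ∈ s, (∑ i ∈ s \ t, l i) (col V j) = if j ∈ t then 0 else 1 := by
    intro j hj
    rw [LinearMap.sum_apply]
    split_ifs with hjt
    · refine Finset.sum_eq_zero fun i hi => ?_
      rw [Finset.mem_sdiff] at hi
      exact (hl i hi.1).2 j hj (fun h => hi.2 (h ▸ hjt))
    · rw [Finset.sum_eq_single j]
      · exact (hl j hj).1
      · intro i hi hij
        exact (hl i (Finset.mem_sdiff.1 hi).1).2 j hj (Ne.symm hij)
      · intro h
        exact absurd (Finset.mem_sdiff.2 ⟨hj, hjt⟩) h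
  refine ⟨∑ i ∈ s \ t, l i, ?_, ?_⟩
  · rintro x ⟨c, hc, rfl⟩
    rw [map_sum]
    refine Finset.sum_nonneg fun j hj => ?_
    rw [map_smul, key j hj, smul_eq_mul]
    exact mul_nonneg (hc j) (by split_ifs <;> norm_num)
  · ext x
    constructor
    · intro hx
      refine ⟨cone_mono hts hx, ?_⟩
      obtain ⟨c, hc, rfl⟩ := hx
      rw [map_sum]
      refine Finset.sum_eq_zero fun j hj => ?_
      rw [map_smul, key j (hts hj), if_pos hj, smul_zero]
    · rintro ⟨⟨c, hc, rfl⟩, hx⟩
      rw [map_sum] at hx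
      have h0 : ∀ j ∈ s, 0 ≤ (∑ i ∈ s \ t, l i) (c j • col V j) := fun j hj => by
        rw [map_smul, key j hj, smul_eq_mul]
        exact mul_nonneg (hc j) (by split_ifs <;> norm_num)
      rw [Finset.sum_eq_zero_iff_of_nonneg h0] at hx
      refine ⟨c, hc, ?_⟩
      rw [← Finset.sum_sdiff hts]
      have : ∑ i ∈ s \ t, c i • col V i = 0 := by
        refine Finset.sum_eq_zero fun j hj => ?_
        rw [Finset.mem_sdiff] at hj
        have := hx j hj.1
        rw [map_smul, key j hj.1, if_neg hj.2, smul_eq_mul, mul_one] at this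
        rw [this, zero_smul]
      rw [this, zero_add]

/-- Facets of a full-dimensional simplicial cone. -/
lemma facet_eq {s : Finset (Fin m)} (h : LinearIndependent ℝ (fun i : s => col V i))
    (hc : s.card = n) {f : Set (Fin n → ℝ)} (hf : IsFacet f (cone V s)) :
    ∃ i ∈ s, f = cone V (s.erase i) := by
  classical
  obtain ⟨t, hts, rfl⟩ := face_eq hf.1
  have h1 : t.card + 1 = s.card := by
    rw [hc, ← hf.2, dimen_cone (li_mono hts h)]
  have h2 : t ≠ s := by
    rintro rfl
    omega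
  obtain ⟨i, his, hit⟩ := Finset.exists_of_ssubset (lt_of_le_of_ne hts h2)
  refine ⟨i, his, ?_⟩
  have h3 : t = s.erase i := by
    apply Finset.eq_of_subset_of_card_le
    · intro j hj
      exact Finset.mem_erase.2 ⟨fun h => hit (h ▸ hj), hts hj⟩
    · rw [Finset.card_erase_of_mem his]
      omega
  rw [h3]

lemma isFacet_erase {s : Finset (Fin m)} (h : LinearIndependent ℝ (fun i : s => col V i))
    (hc : s.card = n) {i : Fin m} (hi : i ∈ s) : IsFacet (cone V (s.erase i)) (cone V s) := by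
  classical
  refine ⟨cone_isFace h (Finset.erase_subset _ _), ?_⟩
  rw [dimen_cone (li_mono (Finset.erase_subset _ _) h), Finset.card_erase_of_mem hi, ← hc]
  have : 0 < s.card := Finset.card_pos.2 ⟨i, hi⟩
  omega

/-- If the facet opposite to `i` of an empty cone `s` is a facet of the empty cone `t`, then
`t` contains the other generators of `s`. -/
lemma subset_of_facet {s t : Finset (Fin m)}
    (ht : LinearIndependent ℝ (fun i : t => col V i)) (hct : t.card = n)
    (het : ∀ j, col V j ∈ cone V t → j ∈ t) {i : Fin m}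
    (hf : IsFacet (cone V (s.erase i)) (cone V t)) : s.erase i ⊆ t := by
  classical
  intro a ha
  apply het
  have h1 : col V a ∈ cone V (s.erase i) := col_mem_cone ha
  obtain ⟨j, hj, he⟩ := facet_eq ht hct hf
  rw [he] at h1
  exact cone_mono (Finset.erase_subset _ _) h1

/-- A face of a cone that meets the interior is the whole cone. -/
lemma face_eq_of_interior {F σ : Set (Fin n → ℝ)} (h : IsFace F σ) {p : Fin n → ℝ}
    (hp : p ∈ interior σ) (hpF : p ∈ F) : F = σ := by
  obtain ⟨l, hl, rfl⟩ := h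
  have hlp : l p = 0 := hpF.2
  have hz : ∀ y, l y = 0 := by
    intro y
    have hcont : Filter.Tendsto (fun t : ℝ => p + t • y) (nhds 0) (nhds p) := by
      have : Continuous (fun t : ℝ => p + t • y) := by fun_prop
      have := this.tendsto 0
      simpa using this
    have hev : ∀ᶠ t : ℝ in nhds 0, p + t • y ∈ σ :=
      hcont (mem_interior_iff_mem_nhds.1 hp)
    obtain ⟨ε, hε, hball⟩ := Metric.eventually_nhds_iff.1 hev
    have h1 := hl _ (hball (y := ε / 2) (by
      rw [Real.dist_eq, sub_zero, abs_of_pos (by positivity)]; linarith))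
    have h2 := hl _ (hball (y := -(ε / 2)) (by
      rw [Real.dist_eq, sub_zero, abs_neg, abs_of_pos (by positivity)]; linarith))
    rw [map_add, map_smul, hlp, zero_add, smul_eq_mul] at h1 h2
    have h3 : 0 ≤ l y := by
      by_contra hneg
      push Not at hneg
      have := mul_neg_of_pos_of_neg (half_pos hε) hneg
      linarith
    have h4 : l y ≤ 0 := by
      by_contra hneg
      push Not at hneg
      have := mul_pos (half_pos hε) hneg
      linarith
    linarith
  ext x
  simp [hz x]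

end general

/-! ## The example -/

/-- The F-matrix. -/
def V : Matrix (Fin 3) (Fin 16) ℤ :=
  !![4, 3, -1, 3, 1, -3, 2, -5, 5, -3, 0, 5, 2, 1, -1, -5; 4, -3, -2, -5, -2, 5, 0, 2, 3, 1, 4, -3, -1, -4, 3, -4; 1, -4, 0, 0, 1, 2, -1, 0, -3, 3, -3, 5, -2, 5, -3, 2]

/-- The index triples of the `56` cones, positively oriented. -/
def T : Fin 56 → Fin 3 → Fin 16 :=
  ![![0, 10, 5], ![0, 5, 11], ![0, 11, 10], ![1, 5, 10], ![3, 11, 5], ![10, 11, 14], ![1, 14, 5],
    ![1, 10, 12], ![3, 5, 4], ![3, 6, 11], ![10, 14, 15], ![8, 14, 11], ![1, 3, 14], ![5, 14, 13],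
    ![1, 12, 4], ![3, 12, 10], ![3, 4, 15], ![4, 5, 13], ![3, 10, 6], ![6, 9, 11], ![7, 10, 15],
    ![8, 15, 14], ![4, 8, 11], ![1, 13, 3], ![2, 14, 3], ![9, 13, 14], ![1, 4, 13], ![4, 12, 6],
    ![3, 9, 12], ![2, 3, 15], ![4, 11, 15], ![6, 10, 8], ![0, 9, 6], ![7, 11, 9], ![7, 8, 10],
    ![7, 15, 13], ![1, 15, 8], ![4, 6, 8], ![3, 13, 9], ![2, 7, 14], ![7, 9, 14], ![0, 6, 12],
    ![2, 12, 9], ![2, 15, 5], ![11, 13, 15], ![0, 8, 9], ![7, 13, 11], ![5, 8, 7], ![1, 8, 2],
    ![1, 9, 15], ![2, 5, 7], ![0, 12, 8], ![1, 2, 9], ![2, 8, 12], ![5, 15, 9], ![5, 9, 8]]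

/-- The neighbour of the `k`-th cone across the facet opposite to its `i`-th generator. -/
def nb : Fin 56 → Fin 3 → Fin 56 :=
  ![![3, 1, 2], ![4, 2, 0], ![5, 0, 1], ![0, 7, 6], ![1, 8, 9], ![11, 10, 2], ![13, 3, 12],
    ![15, 14, 3], ![17, 16, 4], ![19, 4, 18], ![21, 20, 5], ![5, 22, 21], ![24, 6, 23], ![25, 17, 6],
    ![27, 26, 7], ![7, 18, 28], ![30, 29, 8], ![13, 26, 8], ![31, 9, 15], ![33, 9, 32], ![10, 35, 34],
    ![10, 11, 36], ![11, 30, 37], ![38, 12, 26], ![12, 29, 39], ![13, 40, 38], ![17, 23, 14], ![41, 37, 14],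
    ![42, 15, 38], ![16, 43, 24], ![44, 16, 22], ![34, 37, 18], ![19, 41, 45], ![19, 40, 46], ![31, 20, 47],
    ![44, 46, 20], ![21, 48, 49], ![31, 22, 27], ![25, 28, 23], ![40, 24, 50], ![25, 39, 33], ![27, 51, 32],
    ![28, 52, 53], ![54, 50, 29], ![35, 30, 46], ![55, 32, 51], ![44, 33, 35], ![34, 50, 55], ![53, 52, 36],
    ![54, 36, 52], ![47, 39, 43], ![53, 45, 41], ![42, 49, 48], ![51, 42, 48], ![49, 55, 43], ![45, 47, 54]]

/-- A spanning tree of the dual graph. -/
def par : Fin 56 → Fin 56 :=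
  ![0, 0, 0, 0, 1, 2, 3, 3, 4, 4, 5, 5, 6, 6, 7, 7, 8, 8, 9, 9, 10, 10, 11, 12, 12, 13, 14, 14, 15, 16, 16, 18, 19, 19, 20, 20, 21, 22, 23, 24, 25, 27, 28, 29, 30, 32, 33, 34, 36, 36, 39, 41, 42, 42, 43, 45]

/-- A positive linear relation between the columns. -/
def al : Fin 16 → ℤ :=
  ![1, 1, 1, 2, 1, 1, 1, 3, 1, 1, 1, 1, 1, 1, 2, 1]

/-- The cross product of two columns. -/
def nrm (a b : Fin 16) (k : Fin 3) : ℤ :=
  V (k + 1) a * V (k + 2) b - V (k + 2) a * V (k + 1) b

/-- The normal vector of the facet of the `k`-th cone opposite to its `i`-th generator. -/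
def N (k : Fin 56) (i q : Fin 3) : ℤ := nrm (T k (i + 1)) (T k (i + 2)) q

/-- The normal vector of the `i`-th facet of the `k`-th cone evaluated at the column `j`. -/
def dd (k : Fin 56) (i : Fin 3) (j : Fin 16) : ℤ :=
  N k i 0 * V 0 j + N k i 1 * V 1 j + N k i 2 * V 2 j

/-- The index set of the `k`-th cone. -/
def I (k : Fin 56) : Finset (Fin 16) := {T k 0, T k 1, T k 2}

theorem chk_card : ∀ k, (I k).card = 3 := by decide +kernel

theorem chk_pos : ∀ k i, 0 < dd k i (T k i) := by decide +kernel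

theorem chk_orth : ∀ k i, ∀ j ∈ I k, j ≠ T k i → dd k i j = 0 := by decide +kernel

theorem chk_mem : ∀ k i, T k i ∈ I k := by decide +kernel

theorem chk_mem' : ∀ k, ∀ j ∈ I k, ∃ i, j = T k i := by decide +kernel

theorem chk_empty : ∀ k j, (∀ i, 0 ≤ dd k i j) → j ∈ I k := by decide +kernel

theorem chk_rays : ∀ j, ∃ k, j ∈ I k := by decide +kernel

theorem chk_nb_ne : ∀ k i, ∃ j ∈ I (nb k i), j ∉ I k := by decide +kernel

theorem chk_nb_sub : ∀ k i, (I k).erase (T k i) ⊆ I (nb k i) := by decide +kernel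

theorem chk_nb_side : ∀ k i, ∀ j ∈ I (nb k i), dd k i j ≤ 0 := by decide +kernel

theorem chk_nb_unique : ∀ k i k', (I k).erase (T k i) ⊆ I k' → k' = k ∨ k' = nb k i := by
  decide +kernel

theorem chk_par_lt : ∀ k, k ≠ 0 → par k < k := by decide +kernel

theorem chk_par : ∀ k, k ≠ 0 → (∃ i, nb k i = par k) ∧ ∃ i, nb (par k) i = k := by
  decide +kernel

theorem chk_al : (∀ i, 1 ≤ al i) ∧ ∀ q, ∑ i, al i * V q i = 0 := by decide +kernel

theorem chk_gcd : ∀ i, Int.gcd (V 0 i) (Int.gcd (V 1 i) (V 2 i)) = 1 := by decide +kernel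

theorem chk_par_col : ∀ i j, i ≠ j → (∃ p q, V p i * V q j ≠ V q i * V p j) ∨
    V 0 i * V 0 j + V 1 i * V 1 j + V 2 i * V 2 j ≤ 0 := by decide +kernel

/-- The gcd of the entries of a column. -/
def gcd3 (j : Fin 16) : ℕ := Int.gcd (V 0 j) (Int.gcd (V 1 j) (V 2 j))

/-- The real functional of the `i`-th facet of the `k`-th cone. -/
def fn (k : Fin 56) (i : Fin 3) : (Fin 3 → ℝ) →ₗ[ℝ] ℝ where
  toFun x := (N k i 0 : ℝ) * x 0 + (N k i 1 : ℝ) * x 1 + (N k i 2 : ℝ) * x 2
  map_add' x y := by simp only [Pi.add_apply]; ring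
  map_smul' c x := by simp only [Pi.smul_apply, smul_eq_mul, RingHom.id_apply]; ring

lemma fn_apply (k : Fin 56) (i : Fin 3) (x : Fin 3 → ℝ) :
    fn k i x = (N k i 0 : ℝ) * x 0 + (N k i 1 : ℝ) * x 1 + (N k i 2 : ℝ) * x 2 := rfl

lemma fn_col (k : Fin 56) (i : Fin 3) (j : Fin 16) : fn k i (col V j) = (dd k i j : ℝ) := by
  rw [fn_apply, dd]
  simp only [col]
  push_cast
  ring

lemma li (k : Fin 56) : LinearIndependent ℝ (fun i : I k => col V i) := by
  rw [Fintype.linearIndependent_iff]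
  intro g hg a
  obtain ⟨i, hi⟩ := chk_mem' k a.1 a.2
  have h1 := congrArg (fn k i) hg
  rw [map_sum, map_zero, Finset.sum_eq_single a] at h1
  · rw [map_smul, fn_col, hi, smul_eq_mul] at h1
    have h2 : ((dd k i (T k i) : ℤ) : ℝ) ≠ 0 := by
      have := chk_pos k i
      exact_mod_cast this.ne'
    exact (mul_eq_zero.1 h1).resolve_right h2
  · intro b _ hb
    rw [map_smul, fn_col, chk_orth k i b.1 b.2, Int.cast_zero, smul_zero]
    intro h
    exact hb (Subtype.ext (h.trans hi.symm))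
  · intro h
    exact absurd (Finset.mem_univ a) h

lemma fn_nonneg (k : Fin 56) (i : Fin 3) : ∀ x ∈ cone V (I k), 0 ≤ fn k i x := by
  rintro x ⟨c, hc, rfl⟩
  rw [map_sum]
  refine Finset.sum_nonneg fun j hj => ?_
  rw [map_smul, fn_col, smul_eq_mul]
  refine mul_nonneg (hc j) ?_
  by_cases h : j = T k i
  · rw [h]
    exact_mod_cast (chk_pos k i).le
  · rw [chk_orth k i j hj h]
    simp

lemma fn_nonpos (k : Fin 56) (i : Fin 3) : ∀ x ∈ cone V (I (nb k i)), fn k i x ≤ 0 := by
  rintro x ⟨c, hc, rfl⟩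
  rw [map_sum]
  refine Finset.sum_nonpos fun j hj => ?_
  rw [map_smul, fn_col, smul_eq_mul]
  refine mul_nonpos_of_nonneg_of_nonpos (hc j) ?_
  exact_mod_cast chk_nb_side k i j hj

lemma fn_facet (k : Fin 56) (i : Fin 3) :
    ∀ x ∈ cone V ((I k).erase (T k i)), fn k i x = 0 := by
  rintro x ⟨c, hc, rfl⟩
  rw [map_sum]
  refine Finset.sum_eq_zero fun j hj => ?_
  rw [Finset.mem_erase] at hj
  rw [map_smul, fn_col, chk_orth k i j hj.2 hj.1, Int.cast_zero, smul_zero]

lemma empty_cone (k : Fin 56) (j : Fin 16) (h : col V j ∈ cone V (I k)) : j ∈ I k := by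
  apply chk_empty
  intro i
  have := fn_nonneg k i _ h
  rw [fn_col] at this
  exact_mod_cast this

lemma fn_ne (k : Fin 56) (i : Fin 3) : fn k i ≠ 0 := by
  intro h
  have h1 := fn_col k i (T k i)
  rw [h, LinearMap.zero_apply] at h1
  have := chk_pos k i
  have h2 : (dd k i (T k i)) = 0 := by exact_mod_cast h1.symm
  omega

/-- The pseudofan. -/
def C : Set (Set (Fin 3 → ℝ)) := Set.range (fun k => cone V (I k))

lemma cone_ne {k k' : Fin 56} (h : ∃ j ∈ I k', j ∉ I k) : cone V (I k') ≠ cone V (I k) := by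
  obtain ⟨j, hj, hj'⟩ := h
  intro he
  apply hj'
  apply empty_cone
  rw [← he]
  exact col_mem_cone hj

/-- Across each facet of the `k`-th cone there is exactly one other cone. -/
lemma wall (k : Fin 56) (f : Set (Fin 3 → ℝ)) (hf : IsFacet f (cone V (I k))) :
    ∃ i, IsFacet f (cone V (I (nb k i))) ∧ Opposite f (cone V (I k)) (cone V (I (nb k i))) ∧
      ∀ τ' ∈ C, τ' ≠ cone V (I k) → IsFacet f τ' → τ' = cone V (I (nb k i)) := by
  obtain ⟨a, ha, rfl⟩ := facet_eq (li k) (chk_card k) hf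
  obtain ⟨i, rfl⟩ := chk_mem' k a ha
  refine ⟨i, ⟨cone_isFace (li _) (chk_nb_sub k i), hf.2⟩,
    ⟨fn k i, fn_ne k i, fn_facet k i, fn_nonneg k i, fn_nonpos k i⟩, ?_⟩
  rintro τ' ⟨k', rfl⟩ hne hf'
  have := subset_of_facet (li k') (chk_card k') (empty_cone k') hf'
  rcases chk_nb_unique k i k' this with h | h
  · exact absurd (by simp only [h]) hne
  · simp only [h]

/-- Every neighbour is seen across some facet. -/
lemma wall' (k : Fin 56) (i : Fin 3) : IsFacet (cone V ((I k).erase (T k i)))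
    (cone V (I (nb k i))) := by
  refine ⟨cone_isFace (li _) (chk_nb_sub k i), ?_⟩
  exact (isFacet_erase (li k) (chk_card k) (chk_mem k i)).2

lemma isPseudofan : IsPseudofan V C where
  sub := by
    rintro _ ⟨k, rfl⟩
    exact ⟨I k, chk_card k, li k, rfl, empty_cone k⟩
  rays := by
    intro j
    obtain ⟨k, hk⟩ := chk_rays j
    exact ⟨_, ⟨k, rfl⟩, cone_isFace (li k) (by simpa using hk)⟩
  walls := by
    rintro _ ⟨k, rfl⟩ f hf
    obtain ⟨i, h1, h2, h3⟩ := wall k f hf
    exact ⟨_, ⟨nb k i, rfl⟩, cone_ne (chk_nb_ne k i), h1, h2, h3⟩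

lemma minimal (D : Set (Set (Fin 3 → ℝ))) (hDC : D ⊆ C) (hD : IsPseudofan V D) : D = C := by
  have step : ∀ k i, cone V (I k) ∈ D → cone V (I (nb k i)) ∈ D := by
    intro k i hk
    have hf := isFacet_erase (li k) (chk_card k) (chk_mem k i)
    obtain ⟨τ, hτ, hne, hfτ, -, -⟩ := hD.walls _ hk _ hf
    obtain ⟨k', rfl⟩ := hDC hτ
    have := subset_of_facet (li k') (chk_card k') (empty_cone k') hfτ
    rcases chk_nb_unique k i k' this with h | h
    · exact absurd (by simp only [h]) hne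
    · subst h
      exact hτ
  have down : ∀ n : ℕ, ∀ k : Fin 56, k.val = n → cone V (I k) ∈ D → cone V (I 0) ∈ D := by
    intro n
    induction n using Nat.strong_induction_on with
    | _ n ih =>
      intro k hk hkD
      by_cases h0 : k = 0
      · rw [← h0]
        exact hkD
      · obtain ⟨⟨i, hi⟩, -⟩ := chk_par k h0
        have h1 := step k i hkD
        rw [hi] at h1
        have h2 : (par k).val < k.val := chk_par_lt k h0
        exact ih (par k).val (by omega) (par k) rfl h1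
  have root : cone V (I 0) ∈ D := by
    obtain ⟨σ, hσ, -⟩ := hD.rays 0
    obtain ⟨k, rfl⟩ := hDC hσ
    exact down k.val k rfl hσ
  have up : ∀ n : ℕ, ∀ k : Fin 56, k.val = n → cone V (I k) ∈ D := by
    intro n
    induction n using Nat.strong_induction_on with
    | _ n ih =>
      intro k hk
      by_cases h0 : k = 0
      · rw [h0]
        exact root
      · obtain ⟨-, ⟨i, hi⟩⟩ := chk_par k h0
        have h2 : (par k).val < k.val := chk_par_lt k h0
        have h1 := step (par k) i (ih (par k).val (by omega) (par k) rfl)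
        rw [hi] at h1
        exact h1
  apply Set.Subset.antisymm hDC
  rintro _ ⟨k, rfl⟩
  exact up k.val k rfl

lemma col_smul_sum (k : Fin 56) (x : Fin 3 → ℝ) :
    ∃ c : Fin 16 → ℝ, x = ∑ j ∈ I k, c j • col V j := by
  classical
  have h1 : Submodule.span ℝ (Set.range (fun i : I k => col V i)) = ⊤ := by
    apply LinearIndependent.span_eq_top_of_card_eq_finrank' (li k)
    rw [Fintype.card_coe, chk_card]
    simp
  have h2 : x ∈ Submodule.span ℝ (Set.range (fun i : I k => col V i)) := by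
    rw [h1]; trivial
  rw [Submodule.mem_span_range_iff_exists_fun] at h2
  obtain ⟨c, hc⟩ := h2
  refine ⟨fun j => if h : j ∈ I k then c ⟨j, h⟩ else 0, ?_⟩
  rw [← hc, ← Finset.sum_coe_sort (I k)]
  refine Finset.sum_congr rfl fun j _ => ?_
  simp only [dif_pos j.2]

lemma mem_cone_of_pos (k : Fin 56) (x : Fin 3 → ℝ) (h : ∀ i, 0 < fn k i x) :
    x ∈ cone V (I k) := by
  obtain ⟨c, hc⟩ := col_smul_sum k x
  have hcn : ∀ j ∈ I k, 0 ≤ c j := by
    intro j hj
    obtain ⟨i, rfl⟩ := chk_mem' k j hj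
    have h1 := h i
    rw [hc, map_sum, Finset.sum_eq_single (T k i)] at h1
    · rw [map_smul, fn_col, smul_eq_mul] at h1
      have h2 : (0 : ℝ) < (dd k i (T k i) : ℝ) := by exact_mod_cast chk_pos k i
      exact (pos_of_mul_pos_left h1 h2.le).le
    · intro b hb hne
      rw [map_smul, fn_col, chk_orth k i b hb hne, Int.cast_zero, smul_zero]
    · intro h
      exact absurd (chk_mem k i) h
  refine ⟨fun j => |c j|, fun j => abs_nonneg _, ?_⟩
  rw [hc]
  refine Finset.sum_congr rfl fun j hj => ?_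
  simp only [abs_of_nonneg (hcn j hj)]

lemma mem_interior_of_pos (k : Fin 56) (x : Fin 3 → ℝ) (h : ∀ i, 0 < fn k i x) :
    x ∈ interior (cone V (I k)) := by
  rw [mem_interior]
  refine ⟨⋂ i, {y | 0 < fn k i y}, fun y hy => mem_cone_of_pos k y (Set.mem_iInter.1 hy), ?_,
    Set.mem_iInter.2 h⟩
  apply isOpen_iInter_of_finite
  intro i
  apply isOpen_lt continuous_const
  exact (fn k i).continuous_of_finiteDimensional

/-- A point in the interior of two cones. -/
def p : Fin 3 → ℤ := ![1, -2, 3]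

theorem chk_p : ∀ i, 0 < N 8 i 0 * p 0 + N 8 i 1 * p 1 + N 8 i 2 * p 2 ∧
    0 < N 46 i 0 * p 0 + N 46 i 1 * p 1 + N 46 i 2 * p 2 := by decide +kernel

theorem chk_p_ne : ∃ j ∈ I 8, j ∉ I 46 := by decide +kernel

lemma p_interior : (fun q => (p q : ℝ)) ∈ interior (cone V (I 8)) ∧
    (fun q => (p q : ℝ)) ∈ interior (cone V (I 46)) := by
  constructor
  · apply mem_interior_of_pos
    intro i
    rw [fn_apply]
    exact_mod_cast (chk_p i).1
  · apply mem_interior_of_pos
    intro i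
    rw [fn_apply]
    exact_mod_cast (chk_p i).2

lemma not_fan (S : Set (Set (Fin 3 → ℝ))) (hS : IsFan V S) : C ≠ {σ | σ ∈ S ∧ dimen σ = 3} := by
  intro hC
  have h1 : cone V (I 8) ∈ S := by
    have : cone V (I 8) ∈ C := ⟨_, rfl⟩
    rw [hC] at this
    exact this.1
  have h2 : cone V (I 46) ∈ S := by
    have : cone V (I 46) ∈ C := ⟨_, rfl⟩
    rw [hC] at this
    exact this.1
  obtain ⟨h3, h4⟩ := hS.inter _ h1 _ h2
  obtain ⟨p1, p2⟩ := p_interior
  have hp := Set.mem_inter (interior_subset p1) (interior_subset p2)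
  have h5 := face_eq_of_interior h3 p1 hp
  have h6 := face_eq_of_interior h4 p2 hp
  exact cone_ne chk_p_ne (h5.symm.trans h6)

lemma isFMatrix : IsFMatrix V where
  rank := by
    have htop : Submodule.span ℝ (Set.range (fun i => col V i)) = ⊤ := by
      rw [eq_top_iff]
      intro x _
      obtain ⟨c, rfl⟩ := col_smul_sum 0 x
      exact Submodule.sum_mem _ fun i hi => Submodule.smul_mem _ _
        (Submodule.subset_span ⟨i, rfl⟩)
    rw [Matrix.rank_eq_finrank_span_cols]
    have : (Set.range (V.map (Int.cast : ℤ → ℝ)).col) = Set.range (fun i => col V i) := rfl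
    rw [this, htop]
    simp
  ne_zero := by
    intro i h
    obtain ⟨k, hk⟩ := chk_rays i
    obtain ⟨a, rfl⟩ := chk_mem' k i hk
    have h1 := fn_col k a (T k a)
    rw [h, map_zero] at h1
    have := chk_pos k a
    have h2 : (dd k a (T k a)) = 0 := by exact_mod_cast h1.symm
    omega
  not_multiple := by
    intro i j hij c hc h
    have h1 : ∀ q, (V q i : ℝ) = c * (V q j : ℝ) := fun q => congrFun h q
    rcases chk_par_col i j hij with ⟨a, b, hab⟩ | hd
    · apply hab
      have : (V a i : ℝ) * (V b j : ℝ) = (V b i : ℝ) * (V a j : ℝ) := by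
        rw [h1 a, h1 b]; ring
      exact_mod_cast this
    · have h2 : (V 0 i : ℝ) * V 0 j + V 1 i * V 1 j + V 2 i * V 2 j ≤ 0 := by
        exact_mod_cast hd
      rw [h1 0, h1 1, h1 2] at h2
      have h3 : c * ((V 0 j : ℝ) ^ 2 + (V 1 j : ℝ) ^ 2 + (V 2 j : ℝ) ^ 2) ≤ 0 := by
        nlinarith
      have h4 : (V 0 j : ℝ) ^ 2 + (V 1 j : ℝ) ^ 2 + (V 2 j : ℝ) ^ 2 ≤ 0 := by
        by_contra hn
        push Not at hn
        have := mul_pos hc hn
        linarith
      have h5 : gcd3 j = 0 := by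
        have a0 : (V 0 j : ℝ) = 0 := by nlinarith [sq_nonneg (V 0 j : ℝ), sq_nonneg (V 1 j : ℝ), sq_nonneg (V 2 j : ℝ)]
        have a1 : (V 1 j : ℝ) = 0 := by nlinarith [sq_nonneg (V 0 j : ℝ), sq_nonneg (V 1 j : ℝ), sq_nonneg (V 2 j : ℝ)]
        have a2 : (V 2 j : ℝ) = 0 := by nlinarith [sq_nonneg (V 0 j : ℝ), sq_nonneg (V 1 j : ℝ), sq_nonneg (V 2 j : ℝ)]
        have b0 : V 0 j = 0 := by exact_mod_cast a0
        have b1 : V 1 j = 0 := by exact_mod_cast a1
        have b2 : V 2 j = 0 := by exact_mod_cast a2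
        simp [gcd3, b0, b1, b2]
      rw [gcd3, chk_gcd j] at h5
      exact one_ne_zero h5
  generate := by
    rw [Set.eq_univ_iff_forall]
    intro x
    obtain ⟨c, hc⟩ := col_smul_sum 0 x
    let d : Fin 16 → ℝ := fun j => if j ∈ I 0 then c j else 0
    have hd : x = ∑ j, d j • col V j := by
      rw [hc]
      simp only [d, ite_smul, zero_smul]
      rw [Finset.sum_ite_mem, Finset.univ_inter]
    let t : ℝ := ∑ j, |d j|
    have ht : ∀ j, |d j| ≤ t := fun j =>
      Finset.single_le_sum (f := fun j => |d j|) (fun i _ => abs_nonneg _) (Finset.mem_univ j)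
    have hrel : ∑ j, (t * (al j : ℝ)) • col V j = 0 := by
      funext q
      rw [Finset.sum_apply]
      simp only [Pi.smul_apply, smul_eq_mul, col, Pi.zero_apply]
      have := chk_al.2 q
      have h2 : (∑ j, (al j : ℝ) * (V q j : ℝ)) = 0 := by exact_mod_cast this
      have h3 : ∑ j, t * (al j : ℝ) * (V q j : ℝ) = t * ∑ j, (al j : ℝ) * (V q j : ℝ) := by
        rw [Finset.mul_sum]
        exact Finset.sum_congr rfl fun j _ => by ring
      rw [h3, h2, mul_zero]
    refine ⟨fun j => d j + t * (al j : ℝ), fun j => ?_, ?_⟩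
    · have h1 : (1 : ℝ) ≤ (al j : ℝ) := by exact_mod_cast chk_al.1 j
      have h2 : 0 ≤ t := (abs_nonneg (d j)).trans (ht j)
      have h3 := neg_abs_le (d j)
      have h4 := ht j
      nlinarith
    · rw [hd]
      simp only [add_smul]
      rw [Finset.sum_add_distrib, hrel, add_zero]
  primitive := by
    intro i d hd
    have h1 : (d : ℤ) ∣ (Int.gcd (V 0 i) (Int.gcd (V 1 i) (V 2 i)) : ℤ) :=
      Int.dvd_coe_gcd (hd 0) (Int.dvd_coe_gcd (hd 1) (hd 2))
    rw [chk_gcd i] at h1
    exact isUnit_of_dvd_one (by simpa using h1)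

/-- **Main result.**  There are a `3 x 16` F-matrix `V` and a pseudofan `C` of `V` such that
`C` is minimal, `C` is not the set of maximal cones of any complete simplicial fan whose rays
are the rays spanned by the columns of `V`, and two distinct cones of `C` have intersecting
interiors. -/
theorem result : ∃ (V : Matrix (Fin 3) (Fin 16) ℤ) (C : Set (Set (Fin 3 → ℝ))),
    IsFMatrix V ∧ IsPseudofan V C ∧
    (∀ D, D ⊆ C → IsPseudofan V D → D = C) ∧
    (∀ S, IsFan V S → C ≠ {σ | σ ∈ S ∧ dimen σ = 3}) ∧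
    ∃ σ ∈ C, ∃ τ ∈ C, σ ≠ τ ∧ (interior σ ∩ interior τ).Nonempty :=
  ⟨V, C, isFMatrix, isPseudofan, minimal, not_fan,
    cone V (I 8), ⟨_, rfl⟩, cone V (I 46), ⟨_, rfl⟩, cone_ne chk_p_ne,
    _, p_interior.1, p_interior.2⟩

end Pool.Agent.Results.MP_d9dcf6_co.Pseudofan
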